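import Pool.Agent.Results.MP_03d093_al.SphereBall
import Pool.Agent.Results.MP_6985d1_al.ExactGrowth

set_option autoImplicit false

/-!
# The spherical growth function of the first Grigorchuk group is `exp(n^α)`

`G` is the first Grigorchuk group acting on the binary words, generated by `a, b, c, d`, and `sph n` is
the number of its elements of length exactly `n` (definitions in
`Pool/Agent/Results/MP_03d093_al/SphereBall.lean`); `lam ≈ 2.4675` is the positive root of
`x³ = x² + 2x + 4` and `alpha = log 2 / log lam ≈ 0.7674` (definitions in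
`Pool/Agent/H776R2/Grig/Defs.lean`).
-/

namespace Pool.Agent.Results.MP_bbfbdc_al.SphereExact

open Pool.Agent.Results.MP_03d093_al.SphereBall Pool.Agent.H776R2.Grig

/-- every sphere is nonempty -/
theorem sph_pos (N : ℕ) : 1 ≤ sph N := by
  obtain ⟨g, hg⟩ : ∃ g : G, ¬ len g ≤ N := by
    by_contra h
    push Not at h
    have h1 : (Set.univ : Set G).Finite := (ball_finite N).subset fun g _ => h g
    exact Set.infinite_univ h1
  obtain ⟨w, hw, rfl⟩ := exists_geod g
  have hstep : ∀ i, len (evG (w.take (i + 1))) ≤ len (evG (w.take i)) + 1 := by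
    intro i
    by_cases hi : i < w.length
    · rw [List.take_succ_eq_append_getElem hi, evG_append]
      exact len_mul_gen_le _ _
    · push Not at hi
      rw [List.take_of_length_le hi, List.take_of_length_le (by omega)]
      omega
  have h0 : len (evG (w.take 0)) ≤ N := by
    have := len_le (w.take 0)
    simp only [List.take_zero, List.length_nil] at this ⊢
    omega
  have h1 : N ≤ len (evG (w.take (0 + w.length))) := by
    rw [zero_add, List.take_length]
    omega
  obtain ⟨i, -, hi⟩ := ivt (fun i => len (evG (w.take i))) hstep N 0 h0 w.length h1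
  have hne : Nonempty {g : G // len g = N} := ⟨⟨evG (w.take i), hi⟩⟩
  exact Nat.card_pos

/-- **Theorem.** Let `lam` be the positive root of `x³ = x² + 2x + 4` and `alpha = log 2 / log lam`
(so `3/4 < alpha < 10/13`).  There is an integer `C ≥ 1` such that `exp(n^alpha) ≤ sph N` for all `n`
and all `N ≥ C n`, in particular `exp(n^alpha) ≤ sph (C n)` for all `n`; and conversely
`sph n ≤ exp((C n)^alpha)` for all `n`. -/
theorem result :
    (0 < lam ∧ lam ^ 3 = lam ^ 2 + 2 * lam + 4) ∧ (3 / 4 < alpha ∧ alpha < 10 / 13) ∧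
    ∃ C : ℕ, 1 ≤ C ∧
      (∀ n N : ℕ, C * n ≤ N → Real.exp ((n : ℝ) ^ alpha) ≤ (sph N : ℝ)) ∧
      (∀ n : ℕ, (sph n : ℝ) ≤ Real.exp (((C * n : ℕ) : ℝ) ^ alpha)) := by
  obtain ⟨h1, h2, ⟨C1, hC1, hlow⟩, ⟨C2, hC2, hup⟩⟩ :=
    Pool.Agent.Results.MP_6985d1_al.ExactGrowth.result
  obtain ⟨C3, hC3, hbs⟩ := ball_le_sph
  have hα : 0 < alpha := by linarith [h2.1]
  refine ⟨h1, h2, C3 * C1 * 4 + C2, by omega, ?_, ?_⟩
  · intro n N hN
    rcases Nat.eq_zero_or_pos n with hn | hn
    · subst hn
      rw [Nat.cast_zero, Real.zero_rpow hα.ne', Real.exp_zero]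
      exact_mod_cast sph_pos N
    · have hn1 : (1 : ℝ) ≤ n := by exact_mod_cast hn
      set t : ℝ := (n : ℝ) ^ alpha with ht
      have ht1 : 1 ≤ t := Real.one_le_rpow hn1 hα.le
      have h4 : 2 * t ≤ (((4 * n : ℕ) : ℝ)) ^ alpha := by
        push_cast
        rw [Real.mul_rpow (by norm_num) (by positivity)]
        have : (2 : ℝ) ≤ (4 : ℝ) ^ alpha := by
          calc (2 : ℝ) = (4 : ℝ) ^ (1 / 2 : ℝ) := by
                rw [← Real.sqrt_eq_rpow, show (4 : ℝ) = 2 ^ 2 by norm_num,
                  Real.sqrt_sq (by norm_num)]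
            _ ≤ (4 : ℝ) ^ alpha := by
                apply Real.rpow_le_rpow_of_exponent_le (by norm_num)
                linarith [h2.1]
        exact mul_le_mul_of_nonneg_right this (by positivity)
      have h5 := hlow (4 * n)
      have h6 := hbs (C1 * (4 * n)) (Nat.mul_pos (by omega) (by omega)) N (by
        refine le_trans ?_ hN
        nlinarith [Nat.zero_le (C2 * n)])
      have h7 : ((⌊Real.exp ((((4 * n : ℕ) : ℝ)) ^ alpha)⌋₊ : ℕ) : ℝ) ≤ (sph N : ℝ) := by
        exact_mod_cast h5.trans h6
      refine le_trans ?_ h7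
      have h8 : Real.exp t + 1 ≤ Real.exp ((((4 * n : ℕ) : ℝ)) ^ alpha) := by
        refine le_trans ?_ (Real.exp_le_exp.2 h4)
        rw [two_mul, Real.exp_add]
        have : 2 ≤ Real.exp t := by
          have := Real.add_one_le_exp t
          linarith
        nlinarith
      have h9 := Nat.lt_floor_add_one (Real.exp ((((4 * n : ℕ) : ℝ)) ^ alpha))
      linarith
  · intro n
    have h3 : (sph n : ℝ) ≤ (ball n : ℝ) := by exact_mod_cast sph_le_ball n
    have h4 : (ball n : ℝ) ≤ Real.exp (((C2 * n : ℕ) : ℝ) ^ alpha) := by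
      refine le_trans (by exact_mod_cast hup n) (Nat.floor_le (Real.exp_pos _).le)
    refine h3.trans (h4.trans (Real.exp_le_exp.2 ?_))
    apply Real.rpow_le_rpow (by positivity) _ hα.le
    have : C2 * n ≤ (C3 * C1 * 4 + C2) * n := Nat.mul_le_mul_right _ (by omega)
    exact_mod_cast this

end Pool.Agent.Results.MP_bbfbdc_al.SphereExact
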